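import Pool.Agent.Q248.MN.Mu

/-!
# The collision statistics of multinomial coefficients exceed the known scales
-/

namespace Pool.Agent.Results.MP_675def_co.AllThreeFail

open Pool.Agent.Q248.MN Filter

/-- `C(n) / (n² log n)`, `D(n) / (n^{3/2} √(log n))` and `μ(n) / √(n log n)` all tend to
infinity. -/
theorem result :
    Tendsto (fun n : ℕ => (CC n : ℝ) / ((n : ℝ) ^ 2 * Real.log n)) atTop atTop ∧
    Tendsto (fun n : ℕ => (DD n : ℝ) / ((n : ℝ) ^ (3 / 2 : ℝ) * Real.sqrt (Real.log n)))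
      atTop atTop ∧
    Tendsto (fun n : ℕ => (mu n : ℝ) / Real.sqrt ((n : ℝ) * Real.log n)) atTop atTop :=
  ⟨tendsto_C, tendsto_D, tendsto_mu⟩

end Pool.Agent.Results.MP_675def_co.AllThreeFail
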